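import Mathlib

/-!
# Marginally unstable continuous-time switching systems with sublinear growth
-/

set_option autoImplicit false

open MeasureTheory Filter Topology Set
open scoped Matrix ENNReal

namespace Pool.Agent.Results.MP_c2c39f_an.SublinearGrowth

/-- `x` is the trajectory of `x' = A(t) x` on `[0, ∞)` for the switching law `A`, a measurable map
whose values on `[0, ∞)` lie in the set `S` of real `d × d` matrices: `x` is absolutely continuous
on every interval `[0, T]` and satisfies the differential equation almost everywhere. -/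
structure IsTrajectory {d : ℕ} (S : Set (Matrix (Fin d) (Fin d) ℝ))
    (A : ℝ → Matrix (Fin d) (Fin d) ℝ) (x : ℝ → Fin d → ℝ) : Prop where
  measurable : ∀ i j, Measurable fun t => A t i j
  mem : ∀ t, 0 ≤ t → A t ∈ S
  absCont : ∀ T, 0 < T → AbsolutelyContinuousOnInterval x 0 T
  ode : ∀ᵐ t, 0 < t → HasDerivAt x (A t *ᵥ x t) t

/-- The Lyapunov exponent `sup limsup_{t → ∞} (1/t) log ‖x(t)‖` (with `log 0 = -∞`; the norm is the
maximum norm). -/
noncomputable def lyapunovExponent {d : ℕ} (S : Set (Matrix (Fin d) (Fin d) ℝ)) : EReal :=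
  ⨆ (A : ℝ → Matrix (Fin d) (Fin d) ℝ) (x : ℝ → Fin d → ℝ) (_ : IsTrajectory S A x),
    limsup (fun t : ℝ => ((t⁻¹ : ℝ) : EReal) * ENNReal.log ‖x t‖ₑ) atTop

/-- The system is marginally unstable: its Lyapunov exponent is `0` and it has an unbounded
trajectory. -/
def MarginallyUnstable {d : ℕ} (S : Set (Matrix (Fin d) (Fin d) ℝ)) : Prop :=
  lyapunovExponent S = 0 ∧
    ∃ A x, IsTrajectory S A x ∧ ∀ C : ℝ, ∃ t, 0 ≤ t ∧ C < ‖x t‖

/-- `M(t)`, the supremum of `‖x(t)‖` over all trajectories with `‖x(0)‖ ≤ 1`. -/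
noncomputable def growth {d : ℕ} (S : Set (Matrix (Fin d) (Fin d) ℝ)) (t : ℝ) : ℝ≥0∞ :=
  ⨆ (A : ℝ → Matrix (Fin d) (Fin d) ℝ) (x : ℝ → Fin d → ℝ) (_ : IsTrajectory S A x)
    (_ : ‖x 0‖ ≤ 1), ‖x t‖ₑ

/-- The system has sublinear growth: `M(t) / t → 0`. -/
def HasSublinearGrowth {d : ℕ} (S : Set (Matrix (Fin d) (Fin d) ℝ)) : Prop :=
  Tendsto (fun t : ℝ => growth S t / ENNReal.ofReal t) atTop (𝓝 0)

/-- The matrix `[[-a, 0], [a^θ, 0]]`. -/
noncomputable def mat (θ a : ℝ) : Matrix (Fin 2) (Fin 2) ℝ := !![-a, 0; a ^ θ, 0]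

/-- The compact set of matrices. -/
noncomputable def fam (θ : ℝ) : Set (Matrix (Fin 2) (Fin 2) ℝ) := mat θ '' Icc 0 1

lemma continuousOn_mat {θ : ℝ} (hθ : 0 < θ) : Continuous (mat θ) := by
  apply continuous_matrix
  intro i j
  fin_cases i <;> fin_cases j
  · simpa [mat] using continuous_neg
  · simpa [mat] using continuous_const
  · simpa [mat] using Real.continuous_rpow_const hθ.le
  · simpa [mat] using continuous_const

lemma isCompact_fam {θ : ℝ} (hθ : 0 < θ) : IsCompact (fam θ) :=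
  isCompact_Icc.image (continuousOn_mat hθ)

section scalar

variable {a : ℝ → ℝ}

/-- Bounded measurable functions are interval integrable. -/
lemma intInt (ha : Measurable a) (h0 : ∀ t, 0 ≤ t → 0 ≤ a t) (h1 : ∀ t, 0 ≤ t → a t ≤ 1) {T : ℝ}
    (hT : 0 ≤ T) : IntervalIntegrable a volume 0 T := by
  rw [intervalIntegrable_iff_integrableOn_Ioc_of_le hT]
  refine Measure.integrableOn_of_bounded (M := 1) (by simp) ha.aestronglyMeasurable ?_
  filter_upwards [ae_restrict_mem measurableSet_Ioc] with t ht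
  rw [Real.norm_eq_abs, abs_of_nonneg (h0 t ht.1.le)]
  exact h1 t ht.1.le

/-- The primitive of `a` is Lipschitz. -/
lemma lip_prim (ha : Measurable a) (h0 : ∀ t, 0 ≤ t → 0 ≤ a t) (h1 : ∀ t, 0 ≤ t → a t ≤ 1) {T : ℝ}
    (hT : 0 ≤ T) : LipschitzOnWith 1 (fun t => ∫ s in (0 : ℝ)..t, a s) (uIcc 0 T) := by
  rw [uIcc_of_le hT]
  apply LipschitzOnWith.of_dist_le_mul
  intro s hs t ht
  rw [Real.dist_eq, Real.dist_eq, intervalIntegral.integral_interval_sub_left
    (intInt ha h0 h1 hs.1) (intInt ha h0 h1 ht.1), NNReal.coe_one, one_mul]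
  have := intervalIntegral.norm_integral_le_of_norm_le_const (a := t) (b := s) (f := a) (C := 1) ?_
  · rwa [Real.norm_eq_abs, one_mul] at this
  · intro u hu
    have hu0 : 0 ≤ u := by
      rcases le_total t s with h | h
      · rw [uIoc_of_le h] at hu; exact ht.1.trans hu.1.le
      · rw [uIoc_of_ge h] at hu; exact hs.1.trans hu.1.le
    rw [Real.norm_eq_abs, abs_of_nonneg (h0 u hu0)]
    exact h1 u hu0

lemma prim_mem (ha : Measurable a) (h0 : ∀ t, 0 ≤ t → 0 ≤ a t) (h1 : ∀ t, 0 ≤ t → a t ≤ 1) {t : ℝ}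
    (ht : 0 ≤ t) : 0 ≤ (∫ s in (0 : ℝ)..t, a s) ∧ (∫ s in (0 : ℝ)..t, a s) ≤ t := by
  constructor
  · exact intervalIntegral.integral_nonneg ht fun s hs => h0 s hs.1
  · calc (∫ s in (0 : ℝ)..t, a s) ≤ ∫ s in (0 : ℝ)..t, (1 : ℝ) :=
          intervalIntegral.integral_mono_on ht (intInt ha h0 h1 ht) (by simp) fun s hs => h1 s hs.1
      _ = t := by simp

lemma exp_AC (ha : Measurable a) (h0 : ∀ t, 0 ≤ t → 0 ≤ a t) (h1 : ∀ t, 0 ≤ t → a t ≤ 1) (c : ℝ)
    {T : ℝ} (hT : 0 ≤ T) :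
    AbsolutelyContinuousOnInterval (fun t => Real.exp (c * ∫ s in (0 : ℝ)..t, a s)) 0 T := by
  obtain ⟨K, hK⟩ : ∃ K, LipschitzOnWith K (fun u => Real.exp (c * u)) (Icc 0 T) := by
    have hc : ContDiff ℝ 1 (fun u : ℝ => Real.exp (c * u)) := by fun_prop
    have := hc.contDiffOn (s := Icc 0 T)
    exact this.exists_lipschitzOnWith (by norm_num) (convex_Icc 0 T) isCompact_Icc
  refine (LipschitzOnWith.comp hK (lip_prim ha h0 h1 hT) ?_).absolutelyContinuousOnInterval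
  intro t ht
  rw [uIcc_of_le hT] at ht
  have := prim_mem ha h0 h1 ht.1
  exact ⟨this.1, this.2.trans ht.2⟩

lemma exp_deriv (ha : Measurable a) (h0 : ∀ t, 0 ≤ t → 0 ≤ a t) (h1 : ∀ t, 0 ≤ t → a t ≤ 1) (c : ℝ)
    {T : ℝ} (hT : 0 ≤ T) :
    ∀ᵐ t, t ∈ uIcc 0 T → HasDerivAt (fun t => Real.exp (c * ∫ s in (0 : ℝ)..t, a s))
      (c * a t * Real.exp (c * ∫ s in (0 : ℝ)..t, a s)) t := by
  filter_upwards [(intInt ha h0 h1 hT).ae_hasDerivAt_integral] with t ht htT
  have := ((ht htT 0 left_mem_uIcc).const_mul c).exp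
  convert this using 1
  ring

/-- A scalar absolutely continuous solution of `y' = -a y` is `y(0) exp(-∫a)`. -/
lemma scalar_eq (ha : Measurable a) (h0 : ∀ t, 0 ≤ t → 0 ≤ a t) (h1 : ∀ t, 0 ≤ t → a t ≤ 1)
    {y : ℝ → ℝ} {T : ℝ} (hT : 0 ≤ T) (hy : AbsolutelyContinuousOnInterval y 0 T)
    (hode : ∀ᵐ t, 0 < t → HasDerivAt y (-a t * y t) t) :
    y T = y 0 * Real.exp (-∫ s in (0 : ℝ)..T, a s) := by
  have hAC := hy.fun_mul (exp_AC ha h0 h1 1 hT)
  have hd : ∀ᵐ t, t ∈ uIcc 0 T →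
      HasDerivAt (fun t => y t * Real.exp (1 * ∫ s in (0 : ℝ)..t, a s)) 0 t := by
    have hne : ∀ᵐ t : ℝ, t ≠ 0 := Measure.ae_ne volume 0
    filter_upwards [hode, exp_deriv ha h0 h1 1 hT, hne] with t h1 h2 h3 ht
    have ht0 : 0 < t := lt_of_le_of_ne (by rw [uIcc_of_le hT] at ht; exact ht.1) h3.symm
    exact ((h1 ht0).fun_mul (h2 ht)).congr_deriv (by ring)
  obtain ⟨C, hC⟩ := hAC.const_of_ae_hasDerivAt_zero hd
  have e1 := hC T right_mem_uIcc
  have e2 := hC 0 left_mem_uIcc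
  simp only [one_mul, intervalIntegral.integral_same, Real.exp_zero, mul_one] at e1 e2
  rw [e2, ← e1, mul_assoc, ← Real.exp_add]
  simp

lemma integral_a_exp (ha : Measurable a) (h0 : ∀ t, 0 ≤ t → 0 ≤ a t) (h1 : ∀ t, 0 ≤ t → a t ≤ 1)
    {T : ℝ} (hT : 0 ≤ T) :
    ∫ t in (0 : ℝ)..T, a t * Real.exp (-∫ s in (0 : ℝ)..t, a s) ≤ 1 := by
  have h := (exp_AC ha h0 h1 (-1) hT).integral_deriv_eq_sub
  have h2 : ∫ t in (0 : ℝ)..T, deriv (fun t => Real.exp (-1 * ∫ s in (0 : ℝ)..t, a s)) t =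
      ∫ t in (0 : ℝ)..T, -(a t * Real.exp (-∫ s in (0 : ℝ)..t, a s)) := by
    apply intervalIntegral.integral_congr_ae
    filter_upwards [exp_deriv ha h0 h1 (-1) hT] with t ht htT
    rw [(ht (uIoc_subset_uIcc htT)).deriv, neg_one_mul, neg_one_mul]
    ring
  rw [h2, intervalIntegral.integral_neg] at h
  simp only [intervalIntegral.integral_same, mul_zero, Real.exp_zero] at h
  have := Real.exp_pos (-1 * ∫ s in (0 : ℝ)..T, a s)
  linarith

/-- The weighted arithmetic-geometric mean inequality behind the growth bound. -/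
lemma rpow_le {θ : ℝ} (hθ0 : 0 < θ) (hθ1 : θ < 1) {b T : ℝ} (hb : 0 ≤ b) (hT : 0 < T) :
    b ^ θ ≤ θ * T ^ (1 - θ) * b + (1 - θ) * T ^ (-θ) := by
  have h := Real.geom_mean_le_arith_mean2_weighted (w₁ := θ) (w₂ := 1 - θ) (p₁ := b) (p₂ := T⁻¹)
    hθ0.le (by linarith) hb (inv_pos.mpr hT).le (by ring)
  have hT1 : (T⁻¹) ^ (1 - θ) * T ^ (1 - θ) = 1 := by
    rw [← Real.mul_rpow (inv_pos.mpr hT).le hT.le, inv_mul_cancel₀ hT.ne', Real.one_rpow]
  have hT2 : T⁻¹ * T ^ (1 - θ) = T ^ (-θ) := by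
    rw [← Real.rpow_neg_one T, ← Real.rpow_add hT]; ring_nf
  have hp : 0 < T ^ (1 - θ) := Real.rpow_pos_of_pos hT _
  have h2 := mul_le_mul_of_nonneg_right h hp.le
  rw [mul_assoc, hT1, mul_one] at h2
  calc b ^ θ ≤ (θ * b + (1 - θ) * T⁻¹) * T ^ (1 - θ) := h2
    _ = θ * T ^ (1 - θ) * b + (1 - θ) * (T⁻¹ * T ^ (1 - θ)) := by ring
    _ = _ := by rw [hT2]

lemma integral_rpow_le (ha : Measurable a) (h0 : ∀ t, 0 ≤ t → 0 ≤ a t) (h1 : ∀ t, 0 ≤ t → a t ≤ 1)
    {θ : ℝ} (hθ0 : 0 < θ) (hθ1 : θ < 1) {T : ℝ} (hT : 0 < T) :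
    ∫ t in (0 : ℝ)..T, (a t) ^ θ * Real.exp (-∫ s in (0 : ℝ)..t, a s) ≤ T ^ (1 - θ) := by
  have hE : ContinuousOn (fun t => Real.exp (-∫ s in (0 : ℝ)..t, a s)) (uIcc 0 T) := by
    have := (exp_AC ha h0 h1 (-1) hT.le).continuousOn
    simpa using this
  have hE1 : ∀ t ∈ Icc 0 T, Real.exp (-∫ s in (0 : ℝ)..t, a s) ≤ 1 := fun t ht => by
    rw [Real.exp_le_one_iff]
    linarith [(prim_mem ha h0 h1 ht.1).1]
  have hθm : Measurable fun t => (a t) ^ θ := ha.pow_const θ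
  have hθi : IntervalIntegrable (fun t => (a t) ^ θ) volume 0 T :=
    intInt hθm (fun t ht => Real.rpow_nonneg (h0 t ht) θ)
      (fun t ht => Real.rpow_le_one (h0 t ht) (h1 t ht) hθ0.le) hT.le
  have hai := intInt ha h0 h1 hT.le
  have e1 : IntervalIntegrable (fun t => (a t) ^ θ * Real.exp (-∫ s in (0 : ℝ)..t, a s))
      volume 0 T := hθi.mul_continuousOn hE
  have e2 : IntervalIntegrable (fun t => a t * Real.exp (-∫ s in (0 : ℝ)..t, a s))
      volume 0 T := hai.mul_continuousOn hE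
  have e3 : IntervalIntegrable (fun t => θ * T ^ (1 - θ) * (a t *
      Real.exp (-∫ s in (0 : ℝ)..t, a s)) + (1 - θ) * T ^ (-θ)) volume 0 T :=
    (e2.const_mul _).add (by simp)
  calc ∫ t in (0 : ℝ)..T, (a t) ^ θ * Real.exp (-∫ s in (0 : ℝ)..t, a s)
      ≤ ∫ t in (0 : ℝ)..T, (θ * T ^ (1 - θ) * (a t *
        Real.exp (-∫ s in (0 : ℝ)..t, a s)) + (1 - θ) * T ^ (-θ)) := by
        apply intervalIntegral.integral_mono_on hT.le e1 e3
        intro t ht
        have hb := rpow_le hθ0 hθ1 (h0 t ht.1) hT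
        have hx := Real.exp_pos (-∫ s in (0 : ℝ)..t, a s)
        have hx1 := hE1 t ht
        have hp : 0 < T ^ (-θ) := Real.rpow_pos_of_pos hT _
        have h3 := mul_le_mul_of_nonneg_right hb hx.le
        have h4 : (1 - θ) * T ^ (-θ) * Real.exp (-∫ s in (0 : ℝ)..t, a s) ≤
            (1 - θ) * T ^ (-θ) := by
          have : 0 ≤ (1 - θ) * T ^ (-θ) := mul_nonneg (by linarith) hp.le
          nlinarith
        nlinarith
    _ = θ * T ^ (1 - θ) * (∫ t in (0 : ℝ)..T, a t * Real.exp (-∫ s in (0 : ℝ)..t, a s)) +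
        (1 - θ) * (T ^ (-θ) * T) := by
        rw [intervalIntegral.integral_add (e2.const_mul _) (by simp),
          intervalIntegral.integral_const_mul, intervalIntegral.integral_const]
        simp only [sub_zero, smul_eq_mul]
        ring
    _ ≤ θ * T ^ (1 - θ) * 1 + (1 - θ) * T ^ (1 - θ) := by
        have hp : 0 < T ^ (1 - θ) := Real.rpow_pos_of_pos hT _
        have hT3 : T ^ (-θ) * T = T ^ (1 - θ) := by
          nth_rewrite 2 [← Real.rpow_one T]
          rw [← Real.rpow_add hT]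
          ring_nf
        rw [hT3]
        have := mul_le_mul_of_nonneg_left (integral_a_exp ha h0 h1 hT.le)
          (mul_nonneg hθ0.le hp.le)
        linarith
    _ = T ^ (1 - θ) := by ring

end scalar

section planar

variable {θ : ℝ} {A : ℝ → Matrix (Fin 2) (Fin 2) ℝ} {x : ℝ → Fin 2 → ℝ}

/-- Components of absolutely continuous curves are absolutely continuous. -/
lemma comp_AC {d : ℕ} {x : ℝ → Fin d → ℝ} {a b : ℝ} (h : AbsolutelyContinuousOnInterval x a b)
    (i : Fin d) : AbsolutelyContinuousOnInterval (fun t => x t i) a b :=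
  squeeze_zero (fun _ => Finset.sum_nonneg fun _ _ => dist_nonneg)
    (fun _ => Finset.sum_le_sum fun _ _ => dist_le_pi_dist _ _ i) h

/-- The components of a trajectory. -/
lemma traj_data (h : IsTrajectory (fam θ) A x) :
    ∃ a : ℝ → ℝ, Measurable a ∧ (∀ t, 0 ≤ t → 0 ≤ a t) ∧ (∀ t, 0 ≤ t → a t ≤ 1) ∧
      (∀ T, 0 ≤ T → AbsolutelyContinuousOnInterval (fun t => x t 0) 0 T) ∧
      (∀ T, 0 ≤ T → AbsolutelyContinuousOnInterval (fun t => x t 1) 0 T) ∧
      (∀ᵐ t, 0 < t → HasDerivAt (fun t => x t 0) (-a t * x t 0) t) ∧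
      (∀ᵐ t, 0 < t → HasDerivAt (fun t => x t 1) ((a t) ^ θ * x t 0) t) := by
  have hAC : ∀ T, 0 ≤ T → AbsolutelyContinuousOnInterval x 0 T := fun T hT =>
    (h.absCont (T + 1) (by linarith)).mono (by
      rw [uIcc_of_le hT, uIcc_of_le (by linarith)]
      exact Icc_subset_Icc_right (by linarith))
  refine ⟨fun t => - A t 0 0, (h.measurable 0 0).neg, ?_, ?_, fun T hT => comp_AC (hAC T hT) 0,
    fun T hT => comp_AC (hAC T hT) 1, ?_, ?_⟩
  · intro t ht
    obtain ⟨b, hb, hA⟩ := h.mem t ht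
    simp only [← hA, mat]
    simpa using hb.1
  · intro t ht
    obtain ⟨b, hb, hA⟩ := h.mem t ht
    simp only [← hA, mat]
    simpa using hb.2
  · filter_upwards [h.ode] with t ht ht0
    have := (hasDerivAt_pi.mp (ht ht0)) 0
    obtain ⟨b, hb, hA⟩ := h.mem t ht0.le
    refine this.congr_deriv ?_
    simp [← hA, mat, Matrix.mulVec, dotProduct, Fin.sum_univ_two]
  · filter_upwards [h.ode] with t ht ht0
    have := (hasDerivAt_pi.mp (ht ht0)) 1
    obtain ⟨b, hb, hA⟩ := h.mem t ht0.le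
    refine this.congr_deriv ?_
    simp [← hA, mat, Matrix.mulVec, dotProduct, Fin.sum_univ_two]

/-- The growth bound for all trajectories. -/
lemma norm_le (hθ0 : 0 < θ) (hθ1 : θ < 1) (h : IsTrajectory (fam θ) A x) {T : ℝ} (hT : 0 < T) :
    ‖x T‖ ≤ ‖x 0‖ * (1 + T ^ (1 - θ)) := by
  obtain ⟨a, ha, h0, h1, hAC0, hAC1, hd0, hd1⟩ := traj_data h
  have hy : ∀ t, 0 ≤ t → x t 0 = x 0 0 * Real.exp (-∫ s in (0 : ℝ)..t, a s) := fun t ht =>
    scalar_eq ha h0 h1 ht (hAC0 t ht) hd0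
  have hp : 0 < T ^ (1 - θ) := Real.rpow_pos_of_pos hT _
  have hx0 : |x 0 0| ≤ ‖x 0‖ := by simpa using norm_le_pi_norm (x 0) 0
  have hx1 : |x 0 1| ≤ ‖x 0‖ := by simpa using norm_le_pi_norm (x 0) 1
  have hE1 : ∀ t, 0 ≤ t → Real.exp (-∫ s in (0 : ℝ)..t, a s) ≤ 1 := fun t ht => by
    rw [Real.exp_le_one_iff]
    linarith [(prim_mem ha h0 h1 ht).1]
  have c0 : |x T 0| ≤ ‖x 0‖ := by
    rw [hy T hT.le, abs_mul, abs_of_pos (Real.exp_pos _)]
    calc |x 0 0| * _ ≤ |x 0 0| * 1 := mul_le_mul_of_nonneg_left (hE1 T hT.le) (abs_nonneg _)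
      _ ≤ ‖x 0‖ := by simpa using hx0
  have hI : x T 1 - x 0 1 = x 0 0 *
      ∫ t in (0 : ℝ)..T, (a t) ^ θ * Real.exp (-∫ s in (0 : ℝ)..t, a s) := by
    rw [← (hAC1 T hT.le).integral_deriv_eq_sub, ← intervalIntegral.integral_const_mul]
    apply intervalIntegral.integral_congr_ae
    filter_upwards [hd1] with t ht htT
    rw [uIoc_of_le hT.le] at htT
    rw [(ht htT.1).deriv, hy t htT.1.le]
    ring
  have hJ := integral_rpow_le ha h0 h1 hθ0 hθ1 hT
  have hJ0 : 0 ≤ ∫ t in (0 : ℝ)..T, (a t) ^ θ * Real.exp (-∫ s in (0 : ℝ)..t, a s) :=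
    intervalIntegral.integral_nonneg hT.le fun t ht =>
      mul_nonneg (Real.rpow_nonneg (h0 t ht.1) θ) (Real.exp_pos _).le
  have c1 : |x T 1| ≤ ‖x 0‖ * (1 + T ^ (1 - θ)) := by
    have : x T 1 = x 0 1 + x 0 0 *
      ∫ t in (0 : ℝ)..T, (a t) ^ θ * Real.exp (-∫ s in (0 : ℝ)..t, a s) := by linarith
    rw [this]
    calc |x 0 1 + x 0 0 * ∫ t in (0 : ℝ)..T, (a t) ^ θ * Real.exp (-∫ s in (0 : ℝ)..t, a s)|
        ≤ |x 0 1| + |x 0 0 * ∫ t in (0 : ℝ)..T, (a t) ^ θ *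
          Real.exp (-∫ s in (0 : ℝ)..t, a s)| := abs_add_le _ _
      _ ≤ ‖x 0‖ + ‖x 0‖ * T ^ (1 - θ) := by
          rw [abs_mul, abs_of_nonneg hJ0]
          exact add_le_add hx1 (mul_le_mul hx0 hJ hJ0 (norm_nonneg _))
      _ = _ := by ring
  rw [pi_norm_le_iff_of_nonneg (by positivity)]
  intro i
  fin_cases i
  · refine c0.trans ?_
    have := norm_nonneg (x 0)
    nlinarith
  · exact c1

/-- Explicit smooth trajectories. -/
lemma traj_of_smooth {a : ℝ → ℝ} (ha : Measurable a) (h0 : ∀ t, 0 ≤ t → 0 ≤ a t)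
    (h1 : ∀ t, 0 ≤ t → a t ≤ 1) {y z : ℝ → ℝ} (hy : ∀ T, 0 < T → ContDiffOn ℝ 1 y (Icc 0 T))
    (hz : ∀ T, 0 < T → ContDiffOn ℝ 1 z (Icc 0 T))
    (hyd : ∀ t, 0 < t → HasDerivAt y (-a t * y t) t)
    (hzd : ∀ t, 0 < t → HasDerivAt z ((a t) ^ θ * y t) t) :
    IsTrajectory (fam θ) (fun t => mat θ (a t)) (fun t => ![y t, z t]) where
  measurable i j := by
    fin_cases i <;> fin_cases j
    · simpa [mat] using ha
    · simp [mat]
    · simpa [mat] using ha.pow_const θ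
    · simp [mat]
  mem t ht := ⟨a t, ⟨h0 t ht, h1 t ht⟩, rfl⟩
  absCont T hT := by
    apply ContDiffOn.absolutelyContinuousOnInterval
    rw [uIcc_of_le hT.le]
    rw [contDiffOn_pi]
    intro i
    fin_cases i
    · exact hy T hT
    · exact hz T hT
  ode := by
    refine Eventually.of_forall fun t ht => ?_
    rw [hasDerivAt_pi]
    intro i
    fin_cases i
    · refine (hyd t ht).congr_deriv ?_
      simp [mat, Matrix.mulVec, dotProduct, Fin.sum_univ_two]
    · refine (hzd t ht).congr_deriv ?_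
      simp [mat, Matrix.mulVec, dotProduct, Fin.sum_univ_two]

/-- The constant trajectory. -/
lemma traj_const (hθ0 : 0 < θ) : IsTrajectory (fam θ) (fun _ => mat θ 0) (fun _ => ![1, 0]) := by
  have := traj_of_smooth (θ := θ) (a := fun _ => 0) measurable_const (fun _ _ => le_rfl)
    (fun _ _ => zero_le_one) (y := fun _ => 1) (z := fun _ => 0)
    (fun T hT => contDiffOn_const) (fun T hT => contDiffOn_const)
    (fun t ht => by simpa using hasDerivAt_const t (1 : ℝ))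
    (fun t ht => by simpa [Real.zero_rpow hθ0.ne'] using hasDerivAt_const t (0 : ℝ))
  simpa using this

/-- The trajectory for the constant control `a = c`. -/
lemma traj_exp {c : ℝ} (hc0 : 0 < c) (hc1 : c ≤ 1) :
    IsTrajectory (fam θ) (fun _ => mat θ c)
      (fun t => ![Real.exp (-c * t), c ^ (θ - 1) * (1 - Real.exp (-c * t))]) := by
  have hd : ∀ t : ℝ, HasDerivAt (fun t => Real.exp (-c * t)) (-c * Real.exp (-c * t)) t := by
    intro t
    have := ((hasDerivAt_id t).const_mul (-c)).exp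
    exact this.congr_deriv (by simp [mul_comm])
  refine traj_of_smooth (a := fun _ => c) measurable_const (fun _ _ => hc0.le)
    (fun _ _ => hc1) (fun T hT => ?_) (fun T hT => ?_) (fun t ht => hd t) (fun t ht => ?_)
  · exact ContDiff.contDiffOn (by fun_prop)
  · exact ContDiff.contDiffOn (by fun_prop)
  · refine (((hd t).const_sub 1).const_mul (c ^ (θ - 1))).congr_deriv ?_
    have : c ^ θ = c ^ (θ - 1) * c := by
      nth_rewrite 3 [← Real.rpow_one c]
      rw [← Real.rpow_add hc0]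
      ring_nf
    rw [this]
    ring

/-- The trajectory for the control `a(t) = p / (1 + |t|)`. -/
lemma traj_pow {p : ℝ} (hp0 : 0 < p) (hp1 : p ≤ 1) (hpθ : θ + p < 1) :
    IsTrajectory (fam θ) (fun t => mat θ (p / (1 + |t|)))
      (fun t => ![(1 + t) ^ (-p), p ^ θ / (1 - θ - p) * ((1 + t) ^ (1 - θ - p) - 1)]) := by
  have hm : Measurable fun t : ℝ => p / (1 + |t|) := by fun_prop
  have hb : ∀ t : ℝ, 0 < 1 + |t| := fun t => by positivity
  refine traj_of_smooth (a := fun t => p / (1 + |t|)) hm (fun t _ => by positivity)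
    (fun t _ => ?_) (fun T hT => ?_) (fun T hT => ?_) (fun t ht => ?_) (fun t ht => ?_)
  · rw [div_le_one (hb t)]
    linarith [abs_nonneg t]
  · refine ContDiffOn.rpow_const_of_ne (by fun_prop) ?_
    intro t ht
    linarith [ht.1]
  · refine contDiffOn_const.mul ((ContDiffOn.rpow_const_of_ne (by fun_prop) ?_).sub
      contDiffOn_const)
    intro t ht
    linarith [ht.1]
  · have h1 : HasDerivAt (fun t : ℝ => 1 + t) 1 t := (hasDerivAt_id t).const_add 1
    have h2 := h1.rpow_const (p := -p) (Or.inl (by linarith))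
    refine h2.congr_deriv ?_
    rw [abs_of_pos ht, Real.rpow_sub_one (by linarith)]
    ring
  · have h1 : HasDerivAt (fun t : ℝ => 1 + t) 1 t := (hasDerivAt_id t).const_add 1
    have h2 := h1.rpow_const (p := 1 - θ - p) (Or.inl (by linarith))
    refine ((h2.sub_const 1).const_mul (p ^ θ / (1 - θ - p))).congr_deriv ?_
    have h3 : (0 : ℝ) < 1 + t := by linarith
    rw [abs_of_pos ht, Real.div_rpow hp0.le h3.le]
    have h4 : (1 + t) ^ (1 - θ - p - 1) = (1 + t) ^ (-p) / (1 + t) ^ θ := by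
      rw [← Real.rpow_sub h3]; ring_nf
    rw [h4]
    have h5 : (1 - θ - p) ≠ 0 := by linarith
    have h6 : (1 + t) ^ θ ≠ 0 := (Real.rpow_pos_of_pos h3 _).ne'
    field_simp

lemma growth_le (hθ0 : 0 < θ) (hθ1 : θ < 1) {t : ℝ} (ht : 1 ≤ t) :
    growth (fam θ) t ≤ ENNReal.ofReal (2 * t ^ (1 - θ)) := by
  refine iSup_le fun A => iSup_le fun x => iSup_le fun h => iSup_le fun h1 => ?_
  rw [← ofReal_norm]
  apply ENNReal.ofReal_le_ofReal
  have hb := norm_le hθ0 hθ1 h (T := t) (by linarith)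
  have hp : 1 ≤ t ^ (1 - θ) := Real.one_le_rpow ht (by linarith)
  have := norm_nonneg (x 0)
  nlinarith

lemma le_growth {t : ℝ} (ht : 1 ≤ t) :
    ENNReal.ofReal ((1 - Real.exp (-1)) * t ^ (1 - θ)) ≤ growth (fam θ) t := by
  have hc0 : 0 < t⁻¹ := by positivity
  have hc1 : t⁻¹ ≤ 1 := inv_le_one_of_one_le₀ ht
  have h := traj_exp (θ := θ) hc0 hc1
  have h0 : ‖(fun s : ℝ => ![Real.exp (-t⁻¹ * s), (t⁻¹) ^ (θ - 1) *
      (1 - Real.exp (-t⁻¹ * s))]) 0‖ ≤ 1 := by
    rw [pi_norm_le_iff_of_nonneg zero_le_one]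
    intro i
    fin_cases i <;> simp
  refine le_trans ?_ (le_iSup_of_le _ (le_iSup_of_le _ (le_iSup_of_le h (le_iSup_of_le h0 le_rfl))))
  rw [← ofReal_norm]
  apply ENNReal.ofReal_le_ofReal
  have h2 := norm_le_pi_norm ((fun s : ℝ => ![Real.exp (-t⁻¹ * s), (t⁻¹) ^ (θ - 1) *
      (1 - Real.exp (-t⁻¹ * s))]) t) 1
  refine le_trans (le_of_eq ?_) h2
  have h3 : -t⁻¹ * t = -1 := by field_simp
  have h4 : (t⁻¹) ^ (θ - 1) = t ^ (1 - θ) := by
    rw [Real.inv_rpow (by linarith), ← Real.rpow_neg (by linarith)]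
    ring_nf
  have h5 : 0 < t ^ (1 - θ) := Real.rpow_pos_of_pos (by linarith) _
  have h6 : 0 ≤ 1 - Real.exp (-1) := by
    have : Real.exp (-1) ≤ 1 := Real.exp_le_one_iff.mpr (by norm_num)
    linarith
  simp only [h3, h4, Matrix.cons_val_one, Matrix.cons_val_fin_one, Real.norm_eq_abs]
  rw [abs_of_nonneg (mul_nonneg h5.le h6)]
  ring

lemma lyapunov_le (hθ0 : 0 < θ) (hθ1 : θ < 1) : lyapunovExponent (fam θ) ≤ 0 := by
  refine iSup_le fun A => iSup_le fun x => iSup_le fun h => ?_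
  have hlim : Tendsto (fun t : ℝ => (((t⁻¹ * (Real.log (2 * (‖x 0‖ + 1)) + Real.log t) : ℝ)) :
      EReal)) atTop (𝓝 ((0 : ℝ) : EReal)) := by
    refine (continuous_coe_real_ereal.tendsto 0).comp ?_
    have h1 : Tendsto (fun t : ℝ => t⁻¹ * Real.log (2 * (‖x 0‖ + 1))) atTop (𝓝 0) := by
      simpa using tendsto_inv_atTop_zero.mul_const (Real.log (2 * (‖x 0‖ + 1)))
    have h2 : Tendsto (fun t : ℝ => t⁻¹ * Real.log t) atTop (𝓝 0) := by
      have := Real.isLittleO_log_id_atTop.tendsto_div_nhds_zero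
      refine this.congr fun t => ?_
      simp [div_eq_inv_mul]
    simpa [mul_add] using h1.add h2
  rw [← EReal.coe_zero, ← hlim.limsup_eq]
  refine limsup_le_limsup ?_
  filter_upwards [eventually_ge_atTop (1 : ℝ)] with t ht
  have ht0 : 0 < t := by linarith
  have hK : 0 < 2 * (‖x 0‖ + 1) := by positivity
  have hb := norm_le hθ0 hθ1 h ht0
  have hp1 : 1 ≤ t ^ (1 - θ) := Real.one_le_rpow ht (by linarith)
  have hp2 : t ^ (1 - θ) ≤ t := by
    calc t ^ (1 - θ) ≤ t ^ (1 : ℝ) := Real.rpow_le_rpow_of_exponent_le ht (by linarith)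
      _ = t := Real.rpow_one t
  have hb2 : ‖x t‖ ≤ 2 * (‖x 0‖ + 1) * t := by
    have := norm_nonneg (x 0)
    nlinarith
  have h1 : ENNReal.log ‖x t‖ₑ ≤ ((Real.log (2 * (‖x 0‖ + 1)) + Real.log t : ℝ) : EReal) := by
    rw [← Real.log_mul hK.ne' ht0.ne', ← ENNReal.log_ofReal_of_pos (by positivity), ← ofReal_norm]
    exact ENNReal.log_le_log (ENNReal.ofReal_le_ofReal hb2)
  rw [EReal.coe_mul]
  exact mul_le_mul_of_nonneg_left h1 (by
    rw [← EReal.coe_zero]
    exact EReal.coe_le_coe_iff.mpr (by positivity))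

lemma le_lyapunov (hθ0 : 0 < θ) : 0 ≤ lyapunovExponent (fam θ) := by
  refine le_trans (le_of_eq ?_) (le_iSup_of_le _ (le_iSup_of_le _ (le_iSup_of_le
    (traj_const hθ0) le_rfl)))
  have h1 : ‖(![1, 0] : Fin 2 → ℝ)‖ₑ = 1 := by
    rw [← ofReal_norm]
    have : ‖(![1, 0] : Fin 2 → ℝ)‖ = 1 := by
      apply le_antisymm
      · rw [pi_norm_le_iff_of_nonneg zero_le_one]
        intro i
        fin_cases i <;> simp
      · simpa using norm_le_pi_norm (![1, 0] : Fin 2 → ℝ) 0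
    simp [this]
  simp [h1]

lemma unbounded (hθ0 : 0 < θ) (hθ1 : θ < 1) :
    ∃ A x, IsTrajectory (fam θ) A x ∧ ∀ C : ℝ, ∃ t, 0 ≤ t ∧ C < ‖x t‖ := by
  have hp0 : 0 < (1 - θ) / 2 := by linarith
  refine ⟨_, _, traj_pow hp0 (by linarith) (by linarith), fun C => ?_⟩
  set p := (1 - θ) / 2 with hp
  have e : 1 - θ - p = p := by rw [hp]; ring
  have hc : 0 < p ^ θ / (1 - θ - p) := by
    rw [e]
    exact div_pos (Real.rpow_pos_of_pos hp0 _) hp0
  have hlim : Tendsto (fun t : ℝ => p ^ θ / (1 - θ - p) * ((1 + t) ^ (1 - θ - p) - 1))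
      atTop atTop := by
    refine Tendsto.const_mul_atTop hc ?_
    refine tendsto_atTop_add_const_right _ _ ?_
    refine (tendsto_rpow_atTop (by rw [e]; exact hp0)).comp ?_
    exact tendsto_atTop_add_const_left _ _ tendsto_id
  obtain ⟨t, ht1, ht2⟩ := ((hlim.eventually_gt_atTop C).and (eventually_ge_atTop 0)).exists
  refine ⟨t, ht2, ht1.trans_le ?_⟩
  have := norm_le_pi_norm (![(1 + t) ^ (-p), p ^ θ / (1 - θ - p) *
    ((1 + t) ^ (1 - θ - p) - 1)] : Fin 2 → ℝ) 1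
  refine le_trans ?_ this
  simp only [Matrix.cons_val_one, Matrix.cons_val_fin_one, Real.norm_eq_abs]
  exact le_abs_self _

end planar

/-- For every exponent `α ∈ (0, 1)` there is a compact set of real `2 × 2` matrices whose
continuous-time switching system is marginally unstable and has sublinear growth; moreover `M(t)`
is of exact order `t ^ α`. -/
theorem result : ∀ α : ℝ, 0 < α → α < 1 →
    ∃ S : Set (Matrix (Fin 2) (Fin 2) ℝ), IsCompact S ∧ MarginallyUnstable S ∧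
      HasSublinearGrowth S ∧
      ∃ c C : ℝ, 0 < c ∧ 0 < C ∧ ∀ t : ℝ, 1 ≤ t →
        ENNReal.ofReal (c * t ^ α) ≤ growth S t ∧ growth S t ≤ ENNReal.ofReal (C * t ^ α) := by
  intro α hα0 hα1
  have hθ0 : 0 < 1 - α := by linarith
  have hθ1 : 1 - α < 1 := by linarith
  have e : 1 - (1 - α) = α := by ring
  refine ⟨fam (1 - α), isCompact_fam hθ0,
    ⟨le_antisymm (lyapunov_le hθ0 hθ1) (le_lyapunov hθ0), unbounded hθ0 hθ1⟩, ?_,
    1 - Real.exp (-1), 2, ?_, by norm_num, fun t ht => ⟨?_, ?_⟩⟩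
  · have hlim : Tendsto (fun t : ℝ => ENNReal.ofReal (2 * t ^ (-(1 - α)))) atTop (𝓝 0) := by
      have h1 : Tendsto (fun t : ℝ => 2 * t ^ (-(1 - α))) atTop (𝓝 0) := by
        simpa using (tendsto_rpow_neg_atTop hθ0).const_mul 2
      simpa using ENNReal.tendsto_ofReal h1
    refine tendsto_of_tendsto_of_tendsto_of_le_of_le' tendsto_const_nhds hlim
      (Eventually.of_forall fun t => zero_le) ?_
    filter_upwards [eventually_ge_atTop (1 : ℝ)] with t ht
    have ht0 : 0 < t := by linarith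
    rw [ENNReal.div_le_iff (by simpa using ht0) ENNReal.ofReal_ne_top,
      ← ENNReal.ofReal_mul (by positivity)]
    refine (growth_le hθ0 hθ1 ht).trans (le_of_eq ?_)
    congr 1
    rw [mul_assoc]
    congr 1
    nth_rewrite 3 [← Real.rpow_one t]
    rw [← Real.rpow_add ht0]
    ring_nf
  · have : Real.exp (-1) < 1 := Real.exp_lt_one_iff.mpr (by norm_num)
    linarith
  · have := le_growth (θ := 1 - α) ht
    rwa [e] at this
  · have := growth_le hθ0 hθ1 ht
    rwa [e] at this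

end Pool.Agent.Results.MP_c2c39f_an.SublinearGrowth
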